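import Pool.Agent.H76.GH.Targets

/-!
Board gh (hybrid fourth moment, MP_52e316_nt), row CVB: the convolution on the dual side.
-/

set_option autoImplicit false

namespace Pool.Agent.H2.GH

open MeasureTheory Pool.Agent.H34.GM Pool.Agent.H34.GZ Pool.Agent.H34.GU Pool.Agent.H34.GA
open Pool.Agent.H76.GH

/-- the integrand -/
noncomputable def G (m : ℕ) (h ψ : ℝ → ℂ) (r v : ℝ) : ℂ :=
  (starRingEnd ℂ) (h v) * (Real.exp (-(v * m)) : ℂ) * ψ (r * Real.exp (v / m))

theorem A_nonneg {h : ℝ → ℂ} {A : ℝ} (H : Hk h A) : 0 ≤ A := (norm_nonneg _).trans (H.bd 0)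

theorem min_bd {m K : ℕ} (hm : 1 ≤ m) {v r d : ℝ} (hv : |v| ≤ 1) (hr : 0 < r) (hd : 0 < d) :
    min 1 ((r * Real.exp (v / m) / d) ^ K) ≤ Real.exp K * min 1 ((r / d) ^ K) := by
  have hm' : (1 : ℝ) ≤ m := by exact_mod_cast hm
  have h1 : v / m ≤ 1 := by
    rw [div_le_one (by linarith)]
    exact (le_abs_self v).trans (hv.trans hm')
  have h2 : Real.exp (v / m) ≤ Real.exp 1 := Real.exp_le_exp.2 h1
  have h3 : r * Real.exp (v / m) / d = (r / d) * Real.exp (v / m) := by ring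
  have h4 : (Real.exp (v / m)) ^ K ≤ Real.exp K := by
    calc (Real.exp (v / m)) ^ K ≤ (Real.exp 1) ^ K :=
          pow_le_pow_left₀ (Real.exp_pos _).le h2 K
      _ = Real.exp K := by rw [← Real.exp_nat_mul, mul_one]
  have h5 : 0 ≤ (r / d) ^ K := by positivity
  rw [h3, mul_pow, mul_min_of_nonneg _ _ (Real.exp_pos _).le, mul_one]
  apply min_le_min
  · exact Real.one_le_exp (by positivity)
  · rw [mul_comm (Real.exp (K : ℝ))]
    exact mul_le_mul_of_nonneg_left h4 h5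

theorem G_bd {m K : ℕ} {h ψ : ℝ → ℂ} {A M d : ℝ} (hm : 1 ≤ m) (H : Hk h A) (hM : 0 ≤ M)
    (hd : 0 < d) (hψ : ∀ r : ℝ, 0 < r → ‖ψ r‖ ≤ M * min 1 ((r / d) ^ K)) {r : ℝ} (hr : 0 < r)
    (v : ℝ) : ‖G m h ψ r v‖ ≤ Set.indicator (Set.Icc (-1 : ℝ) 1)
      (fun _ => A * Real.exp (m + K) * M * min 1 ((r / d) ^ K)) v := by
  have hA := A_nonneg H
  have hmin : 0 ≤ min 1 ((r / d) ^ K) := le_min zero_le_one (by positivity)
  by_cases hv : h v = 0
  · have h0 : G m h ψ r v = 0 := by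
      unfold G
      rw [hv, map_zero, zero_mul, zero_mul]
    rw [h0, norm_zero]
    apply Set.indicator_nonneg
    intro _ _
    positivity
  · have hv1 := H.supp v hv
    have hmem : v ∈ Set.Icc (-1 : ℝ) 1 := abs_le.1 hv1
    rw [Set.indicator_of_mem hmem]
    unfold G
    have h1 : ‖(Real.exp (-(v * m)) : ℂ)‖ ≤ Real.exp m := by
      rw [Complex.norm_real, Real.norm_of_nonneg (Real.exp_pos _).le]
      apply Real.exp_le_exp.2
      have hm0 : (0 : ℝ) ≤ m := Nat.cast_nonneg m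
      nlinarith [hmem.1, hmem.2]
    have h2 : ‖ψ (r * Real.exp (v / m))‖ ≤ M * (Real.exp K * min 1 ((r / d) ^ K)) :=
      (hψ _ (mul_pos hr (Real.exp_pos _))).trans
        (mul_le_mul_of_nonneg_left (min_bd hm hv1 hr hd) hM)
    rw [norm_mul, norm_mul, RCLike.norm_conj]
    calc ‖h v‖ * ‖(Real.exp (-(v * m)) : ℂ)‖ * ‖ψ (r * Real.exp (v / m))‖
        ≤ A * Real.exp m * (M * (Real.exp K * min 1 ((r / d) ^ K))) := by
          apply mul_le_mul _ h2 (norm_nonneg _) (by positivity)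
          exact mul_le_mul (H.bd v) h1 (norm_nonneg _) hA
      _ = A * Real.exp (m + K) * M * min 1 ((r / d) ^ K) := by
          rw [Real.exp_add]
          ring

theorem ind_int (c : ℝ) : Integrable (Set.indicator (Set.Icc (-1 : ℝ) 1) (fun _ => c)) := by
  rw [integrable_indicator_iff measurableSet_Icc]
  exact integrableOn_const (by rw [Real.volume_Icc]; exact ENNReal.ofReal_ne_top)

theorem ind_val (c : ℝ) : ∫ v, Set.indicator (Set.Icc (-1 : ℝ) 1) (fun _ => c) v = 2 * c := by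
  rw [integral_indicator measurableSet_Icc, setIntegral_const, Measure.real, Real.volume_Icc]
  norm_num

theorem psi_cont {m : ℕ} {ψ : ℝ → ℂ} (hc : ContinuousOn ψ (Set.Ioi 0)) {r : ℝ} (hr : 0 < r) :
    Continuous (fun v : ℝ => ψ (r * Real.exp (v / m))) := by
  rw [← continuousOn_univ]
  refine hc.comp ?_ ?_
  · exact (continuous_const.mul (Real.continuous_exp.comp (continuous_id.div_const _))).continuousOn
  · intro v _
    exact mul_pos hr (Real.exp_pos _)

theorem G_meas {m : ℕ} {h ψ : ℝ → ℂ} {A : ℝ} (H : Hk h A) (hc : ContinuousOn ψ (Set.Ioi 0))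
    {r : ℝ} (hr : 0 < r) : AEStronglyMeasurable (G m h ψ r) := by
  unfold G
  refine AEStronglyMeasurable.mul (AEStronglyMeasurable.mul ?_ ?_) ?_
  · exact Complex.continuous_conj.comp_aestronglyMeasurable H.meas
  · exact (Complex.continuous_ofReal.comp (Real.continuous_exp.comp
      (continuous_id.mul continuous_const).neg)).aestronglyMeasurable
  · exact (psi_cont hc hr).aestronglyMeasurable

theorem cw_cont {m K : ℕ} {h ψ : ℝ → ℂ} {A M d : ℝ} (hm : 1 ≤ m) (H : Hk h A) (hM : 0 ≤ M)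
    (hd : 0 < d) (hc : ContinuousOn ψ (Set.Ioi 0))
    (hψ : ∀ r : ℝ, 0 < r → ‖ψ r‖ ≤ M * min 1 ((r / d) ^ K)) :
    ContinuousOn (cw m h ψ) (Set.Ioi 0) := by
  intro r0 hr0
  apply ContinuousAt.continuousWithinAt
  have hA := A_nonneg H
  have hev : ∀ᶠ r in nhds r0, 0 < r := Ioi_mem_nhds hr0
  refine continuousAt_of_dominated (F := fun r v => G m h ψ r v)
    (bound := Set.indicator (Set.Icc (-1 : ℝ) 1) (fun _ => A * Real.exp (m + K) * M)) ?_ ?_ ?_ ?_
  · filter_upwards [hev] with r hr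
    exact G_meas H hc hr
  · filter_upwards [hev] with r hr
    refine Filter.Eventually.of_forall (fun v => (G_bd hm H hM hd hψ hr v).trans ?_)
    apply Set.indicator_le_indicator
    calc A * Real.exp (m + K) * M * min 1 ((r / d) ^ K) ≤ A * Real.exp (m + K) * M * 1 :=
          mul_le_mul_of_nonneg_left (min_le_left _ _) (by positivity)
      _ = A * Real.exp (m + K) * M := mul_one _
  · exact ind_int _
  · refine Filter.Eventually.of_forall (fun v => ?_)
    unfold G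
    have h1 : ContinuousAt ψ (r0 * Real.exp (v / m)) :=
      hc.continuousAt (Ioi_mem_nhds (mul_pos hr0 (Real.exp_pos _)))
    have h2 : ContinuousAt (fun r : ℝ => r * Real.exp (v / m)) r0 := by fun_prop
    exact continuousAt_const.mul (ContinuousAt.comp (f := fun r : ℝ => r * Real.exp (v / m)) h1 h2)

theorem cw_bd {m K : ℕ} {h ψ : ℝ → ℂ} {A M d : ℝ} (hm : 1 ≤ m) (H : Hk h A) (hM : 0 ≤ M)
    (hd : 0 < d) (hψ : ∀ r : ℝ, 0 < r → ‖ψ r‖ ≤ M * min 1 ((r / d) ^ K)) {r : ℝ} (hr : 0 < r) :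
    ‖cw m h ψ r‖ ≤ 2 * A * Real.exp (m + K) * M * min 1 ((r / d) ^ K) := by
  have h1 : ‖∫ v, G m h ψ r v‖ ≤ ∫ v, Set.indicator (Set.Icc (-1 : ℝ) 1)
      (fun _ => A * Real.exp (m + K) * M * min 1 ((r / d) ^ K)) v :=
    norm_integral_le_of_norm_le (ind_int _)
      (Filter.Eventually.of_forall (fun v => G_bd hm H hM hd hψ hr v))
  rw [ind_val] at h1
  calc ‖cw m h ψ r‖ = ‖∫ v, G m h ψ r v‖ := rfl
    _ ≤ _ := h1
    _ = _ := by ring

/-- integrability of the majorant -/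
theorem maj {m K : ℕ} (hm : 1 ≤ m) (hK : m * (m + 2) ≤ K) {d : ℝ} (hd : 0 < d) :
    IntegrableOn (fun r : ℝ => min 1 ((r / d) ^ K) * r ^ (-((m : ℝ) ^ 2 / 2) - 1))
      (Set.Ioi 0) := by
  have hm' : (1 : ℝ) ≤ m := by exact_mod_cast hm
  have hK' : (m : ℝ) * (m + 2) ≤ K := by exact_mod_cast hK
  have hcont : ContinuousOn (fun r : ℝ => min 1 ((r / d) ^ K) * r ^ (-((m : ℝ) ^ 2 / 2) - 1))
      (Set.Ioi 0) := by
    apply ContinuousOn.mul
    · fun_prop
    · intro r hr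
      exact (Real.continuousAt_rpow_const _ _ (Or.inl (ne_of_gt hr))).continuousWithinAt
  have hu : Set.Ioi (0 : ℝ) = Set.Ioc 0 d ∪ Set.Ioi d := (Set.Ioc_union_Ioi_eq_Ioi hd.le).symm
  rw [hu, integrableOn_union]
  constructor
  · have h1 : IntegrableOn (fun r : ℝ => d⁻¹ ^ K * r ^ ((K : ℝ) + (-((m : ℝ) ^ 2 / 2) - 1)))
        (Set.Ioc 0 d) := by
      apply Integrable.const_mul
      have h2 := intervalIntegral.intervalIntegrable_rpow' (a := 0) (b := d)
        (r := (K : ℝ) + (-((m : ℝ) ^ 2 / 2) - 1)) (by nlinarith)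
      rwa [intervalIntegrable_iff_integrableOn_Ioc_of_le hd.le] at h2
    refine h1.mono' ?_ ?_
    · exact (hcont.mono (fun r hr => hr.1)).aestronglyMeasurable measurableSet_Ioc
    · rw [ae_restrict_iff' measurableSet_Ioc]
      refine Filter.Eventually.of_forall (fun r hr => ?_)
      have hr0 : 0 < r := hr.1
      have hp : 0 ≤ r ^ (-((m : ℝ) ^ 2 / 2) - 1) := Real.rpow_nonneg hr0.le _
      have hmin : 0 ≤ min 1 ((r / d) ^ K) := le_min zero_le_one (by positivity)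
      rw [Real.norm_of_nonneg (mul_nonneg hmin hp), Real.rpow_add hr0, Real.rpow_natCast,
        ← mul_assoc]
      apply mul_le_mul_of_nonneg_right _ hp
      refine (min_le_right _ _).trans (le_of_eq ?_)
      rw [div_eq_mul_inv, mul_pow]
      ring
  · have h1 : IntegrableOn (fun r : ℝ => r ^ (-((m : ℝ) ^ 2 / 2) - 1)) (Set.Ioi d) :=
      integrableOn_Ioi_rpow_of_lt (by nlinarith) hd
    refine h1.mono' ?_ ?_
    · exact (hcont.mono (fun r hr => hd.trans hr)).aestronglyMeasurable measurableSet_Ioi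
    · rw [ae_restrict_iff' measurableSet_Ioi]
      refine Filter.Eventually.of_forall (fun r hr => ?_)
      have hr0 : 0 < r := hd.trans hr
      have hp : 0 ≤ r ^ (-((m : ℝ) ^ 2 / 2) - 1) := Real.rpow_nonneg hr0.le _
      have hmin : 0 ≤ min 1 ((r / d) ^ K) := le_min zero_le_one (by positivity)
      rw [Real.norm_of_nonneg (mul_nonneg hmin hp)]
      calc min 1 ((r / d) ^ K) * r ^ (-((m : ℝ) ^ 2 / 2) - 1)
          ≤ 1 * r ^ (-((m : ℝ) ^ 2 / 2) - 1) := mul_le_mul_of_nonneg_right (min_le_left _ _) hp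
        _ = _ := one_mul _

/-- the Mellin transform as in Mathlib -/
theorem mel_eq (m : ℕ) (ψ : ℝ → ℂ) (s : ℂ) :
    MelA m ψ s = mellin ψ (-((m : ℂ) * (s + ((m : ℂ) - 1) / 2))) := by
  unfold MelA mellin
  refine setIntegral_congr_fun measurableSet_Ioi (fun r _ => ?_)
  simp only [smul_eq_mul]
  ring

/-- the inner integral -/
theorem inner (m : ℕ) (hm : 1 ≤ m) (ψ : ℝ → ℂ) (s : ℂ) (v : ℝ) :
    ∫ r in Set.Ioi (0 : ℝ), ψ (r * Real.exp (v / m)) *
      ((r : ℝ) : ℂ) ^ (-((m : ℂ) * (s + ((m : ℂ) - 1) / 2)) - 1) =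
    Complex.exp ((v : ℂ) * (s + ((m : ℂ) - 1) / 2)) * MelA m ψ s := by
  have h1 : ∫ r in Set.Ioi (0 : ℝ), ψ (r * Real.exp (v / m)) *
      ((r : ℝ) : ℂ) ^ (-((m : ℂ) * (s + ((m : ℂ) - 1) / 2)) - 1) =
      mellin (fun t => ψ (t * Real.exp (v / m))) (-((m : ℂ) * (s + ((m : ℂ) - 1) / 2))) := by
    unfold mellin
    refine setIntegral_congr_fun measurableSet_Ioi (fun r _ => ?_)
    simp only [smul_eq_mul]
    ring
  rw [h1, mellin_comp_mul_right _ _ (Real.exp_pos _), smul_eq_mul, mel_eq]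
  congr 1
  have hm0 : (m : ℂ) ≠ 0 := by
    exact_mod_cast (by omega : m ≠ 0)
  rw [Complex.cpow_def_of_ne_zero (by exact_mod_cast (Real.exp_pos _).ne'),
    ← Complex.ofReal_log (Real.exp_pos _).le, Real.log_exp]
  congr 1
  push_cast
  field_simp

theorem norm_pow (m : ℕ) {r : ℝ} (hr : 0 < r) (t : ℝ) :
    ‖((r : ℝ) : ℂ) ^ (-((m : ℂ) * ((1 / 2 + t * Complex.I) + ((m : ℂ) - 1) / 2)) - 1)‖ =
      r ^ (-((m : ℝ) ^ 2 / 2) - 1) := by
  rw [Complex.norm_cpow_eq_rpow_re_of_pos hr]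
  congr 1
  have h1 : (-((m : ℂ) * ((1 / 2 + t * Complex.I) + ((m : ℂ) - 1) / 2)) - 1) =
      ((-((m : ℝ) ^ 2 / 2) - 1 : ℝ) : ℂ) + ((-(m * t) : ℝ) : ℂ) * Complex.I := by
    push_cast
    ring
  rw [h1, Complex.add_re, Complex.ofReal_re, Complex.re_ofReal_mul, Complex.I_re, mul_zero,
    add_zero]

theorem prod_int {m K : ℕ} {h ψ : ℝ → ℂ} {A M d : ℝ} (hm : 1 ≤ m) (hK : m * (m + 2) ≤ K)
    (H : Hk h A) (hM : 0 ≤ M) (hd : 0 < d) (hc : ContinuousOn ψ (Set.Ioi 0))
    (hψ : ∀ r : ℝ, 0 < r → ‖ψ r‖ ≤ M * min 1 ((r / d) ^ K)) (t : ℝ) :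
    Integrable (Function.uncurry (fun r v : ℝ => G m h ψ r v *
      ((r : ℝ) : ℂ) ^ (-((m : ℂ) * ((1 / 2 + t * Complex.I) + ((m : ℂ) - 1) / 2)) - 1)))
      ((volume.restrict (Set.Ioi (0 : ℝ))).prod (volume : Measure ℝ)) := by
  have hmu : (volume.restrict (Set.Ioi (0 : ℝ))).prod (volume : Measure ℝ) =
      ((volume : Measure ℝ).prod (volume : Measure ℝ)).restrict
        (Set.Ioi (0 : ℝ) ×ˢ Set.univ) := by
    rw [← Measure.prod_restrict, Measure.restrict_univ]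
  have hms : MeasurableSet (Set.Ioi (0 : ℝ) ×ˢ (Set.univ : Set ℝ)) :=
    measurableSet_Ioi.prod MeasurableSet.univ
  have hI := (maj hm hK hd).mul_prod (ind_int (A * Real.exp (m + K) * M))
  refine hI.mono' ?_ ?_
  · have h1 : AEStronglyMeasurable (fun p : ℝ × ℝ => (starRingEnd ℂ) (h p.2))
        ((volume.restrict (Set.Ioi (0 : ℝ))).prod (volume : Measure ℝ)) :=
      (Complex.continuous_conj.comp_aestronglyMeasurable H.meas).comp_snd
    have h2 : AEStronglyMeasurable (fun p : ℝ × ℝ => (Real.exp (-(p.2 * m)) : ℂ))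
        ((volume.restrict (Set.Ioi (0 : ℝ))).prod (volume : Measure ℝ)) :=
      (Complex.continuous_ofReal.comp (Real.continuous_exp.comp
        (continuous_snd.mul continuous_const).neg)).aestronglyMeasurable
    have h3 : AEStronglyMeasurable (fun p : ℝ × ℝ => ψ (p.1 * Real.exp (p.2 / m)))
        ((volume.restrict (Set.Ioi (0 : ℝ))).prod (volume : Measure ℝ)) := by
      rw [hmu]
      refine ContinuousOn.aestronglyMeasurable ?_ hms
      refine hc.comp ?_ ?_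
      · exact (continuous_fst.mul (Real.continuous_exp.comp
          (continuous_snd.div_const _))).continuousOn
      · intro p hp
        exact mul_pos hp.1 (Real.exp_pos _)
    have h4 : AEStronglyMeasurable (fun p : ℝ × ℝ => ((p.1 : ℝ) : ℂ) ^
        (-((m : ℂ) * ((1 / 2 + t * Complex.I) + ((m : ℂ) - 1) / 2)) - 1))
        ((volume.restrict (Set.Ioi (0 : ℝ))).prod (volume : Measure ℝ)) := by
      rw [hmu]
      refine ContinuousOn.aestronglyMeasurable ?_ hms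
      intro p hp
      apply ContinuousAt.continuousWithinAt
      have hp1 : 0 < p.1 := hp.1
      have h5 : ContinuousAt (fun p : ℝ × ℝ => ((p.1 : ℝ) : ℂ)) p :=
        (Complex.continuous_ofReal.comp continuous_fst).continuousAt
      exact h5.cpow continuousAt_const (Complex.ofReal_mem_slitPlane.2 hp1)
    exact ((h1.mul h2).mul h3).mul h4
  · rw [hmu, ae_restrict_iff' hms]
    refine Filter.Eventually.of_forall (fun p hp => ?_)
    have hp1 : 0 < p.1 := hp.1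
    have hp0 : 0 ≤ p.1 ^ (-((m : ℝ) ^ 2 / 2) - 1) := Real.rpow_nonneg hp1.le _
    simp only [Function.uncurry]
    rw [norm_mul, norm_pow m hp1 t]
    refine (mul_le_mul_of_nonneg_right (G_bd hm H hM hd hψ hp1 p.2) hp0).trans (le_of_eq ?_)
    by_cases hv : p.2 ∈ Set.Icc (-1 : ℝ) 1
    · rw [Set.indicator_of_mem hv, Set.indicator_of_mem hv]
      ring
    · rw [Set.indicator_of_notMem hv, Set.indicator_of_notMem hv]
      ring

theorem mel_cw {m K : ℕ} {h ψ : ℝ → ℂ} {A M d : ℝ} (hm : 1 ≤ m) (hK : m * (m + 2) ≤ K)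
    (H : Hk h A) (hM : 0 ≤ M) (hd : 0 < d) (hc : ContinuousOn ψ (Set.Ioi 0))
    (hψ : ∀ r : ℝ, 0 < r → ‖ψ r‖ ≤ M * min 1 ((r / d) ^ K)) (t : ℝ) :
    MelA m (cw m h ψ) (1 / 2 + t * Complex.I) =
      (starRingEnd ℂ) (Lh m h (1 / 2 + t * Complex.I)) * MelA m ψ (1 / 2 + t * Complex.I) := by
  have h1 : MelA m (cw m h ψ) (1 / 2 + t * Complex.I) =
      ∫ r in Set.Ioi (0 : ℝ), ∫ v : ℝ, G m h ψ r v *
        ((r : ℝ) : ℂ) ^ (-((m : ℂ) * ((1 / 2 + t * Complex.I) + ((m : ℂ) - 1) / 2)) - 1) := by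
    unfold MelA
    refine setIntegral_congr_fun measurableSet_Ioi (fun r _ => ?_)
    exact (integral_mul_const _ _).symm
  rw [h1, integral_integral_swap (prod_int hm hK H hM hd hc hψ t)]
  have h2 : ∀ v : ℝ, ∫ r in Set.Ioi (0 : ℝ), G m h ψ r v *
      ((r : ℝ) : ℂ) ^ (-((m : ℂ) * ((1 / 2 + t * Complex.I) + ((m : ℂ) - 1) / 2)) - 1) =
      (starRingEnd ℂ) (h v * Complex.exp (-((v : ℂ) * ((1 / 2 + t * Complex.I) +
        ((m : ℂ) - 1) / 2)))) * MelA m ψ (1 / 2 + t * Complex.I) := by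
    intro v
    have h3 : ∫ r in Set.Ioi (0 : ℝ), G m h ψ r v *
      ((r : ℝ) : ℂ) ^ (-((m : ℂ) * ((1 / 2 + t * Complex.I) + ((m : ℂ) - 1) / 2)) - 1) =
      (starRingEnd ℂ) (h v) * (Real.exp (-(v * m)) : ℂ) *
        ∫ r in Set.Ioi (0 : ℝ), ψ (r * Real.exp (v / m)) *
        ((r : ℝ) : ℂ) ^ (-((m : ℂ) * ((1 / 2 + t * Complex.I) + ((m : ℂ) - 1) / 2)) - 1) := by
      rw [← integral_const_mul]
      refine setIntegral_congr_fun measurableSet_Ioi (fun r _ => ?_)
      unfold G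
      ring
    rw [h3, inner m hm, map_mul, ← mul_assoc]
    congr 1
    rw [mul_assoc]
    congr 1
    rw [← Complex.exp_conj, Complex.ofReal_exp, ← Complex.exp_add]
    congr 1
    simp only [map_neg, map_mul, map_add, map_sub, map_div₀, map_one, map_natCast,
      Complex.conj_ofReal, Complex.conj_I, map_ofNat]
    push_cast
    ring
  simp only [h2]
  rw [integral_mul_const]
  congr 1
  unfold Lh
  rw [← integral_conj]

theorem pf_CVB : T_CVB := by
  intro m K h A hm hK H ψ M d hM hd hc hψ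
  refine ⟨cw_cont hm H hM hd hc hψ, fun r hr => cw_bd hm H hM hd hψ hr, fun t => ?_⟩
  rw [mel_cw hm hK H hM hd hc hψ t, norm_mul, RCLike.norm_conj]

end Pool.Agent.H2.GH
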